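import Mathlib
import Pool.Agent.Helper477.Sph.Rig4
import Pool.Agent.Helper477.Sph.Lens5

set_option autoImplicit false

namespace Pool.Agent.Results.MP_13d552_gt.HighestVolume

/-- `Γ` acts freely on the unit sphere of `ℝ^N`: no element other than the identity fixes a unit
vector. -/
def ActsFreely {N : ℕ} (Γ : Subgroup (Matrix.orthogonalGroup (Fin N) ℝ)) : Prop :=
  ∀ g ∈ Γ, g ≠ 1 → ∀ v : Fin N → ℝ, v ⬝ᵥ v = 1 → g.1.mulVec v ≠ v

/-- The dimension of the space of `Γ`-invariant harmonic homogeneous polynomials of degree `k` on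
`ℝ^N`, i.e. the multiplicity of the eigenvalue `k (k + N - 2)` of the Laplacian on the quotient of
the unit sphere by `Γ`. -/
noncomputable def multiplicity {N : ℕ} (Γ : Subgroup (Matrix.orthogonalGroup (Fin N) ℝ))
    (k : ℕ) : ℕ :=
  Module.finrank ℝ ↥(MvPolynomial.homogeneousSubmodule (Fin N) ℝ k ⊓
    LinearMap.ker (∑ i : Fin N,
      (MvPolynomial.pderiv i).toLinearMap ∘ₗ (MvPolynomial.pderiv i).toLinearMap) ⊓
    ⨅ g ∈ Γ, LinearMap.ker ((MvPolynomial.aeval (fun i : Fin N =>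
      ∑ j : Fin N, MvPolynomial.C (g.1 i j) * MvPolynomial.X j)).toLinearMap
        - LinearMap.id))

/-- The two quotients of the sphere have the same Laplace spectrum with multiplicities. -/
def Isospectral {N : ℕ} (Γ₁ Γ₂ : Subgroup (Matrix.orthogonalGroup (Fin N) ℝ)) : Prop :=
  ∀ k : ℕ, multiplicity Γ₁ k = multiplicity Γ₂ k

/-- The two quotients of the sphere are isometric: the groups are conjugate in `O(N)`. -/
def Isometric {N : ℕ} (Γ₁ Γ₂ : Subgroup (Matrix.orthogonalGroup (Fin N) ℝ)) : Prop :=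
  ∃ h : Matrix.orthogonalGroup (Fin N) ℝ, ∀ g, g ∈ Γ₁ ↔ h * g * h⁻¹ ∈ Γ₂

/-- An isospectral non-isometric pair of `(2n-1)`-dimensional spherical space forms. -/
structure IsPair (n : ℕ) (Γ₁ Γ₂ : Subgroup (Matrix.orthogonalGroup (Fin (2 * n)) ℝ)) : Prop where
  finite₁ : Finite Γ₁
  finite₂ : Finite Γ₂
  free₁ : ActsFreely Γ₁
  free₂ : ActsFreely Γ₂
  isospectral : Isospectral Γ₁ Γ₂
  not_isometric : ¬ Isometric Γ₁ Γ₂

/-- An isospectral non-isometric pair of highest volume: the order of `Γ₁` is the smallest order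
occurring among all isospectral non-isometric pairs of that dimension. -/
def IsHighestVolume (n : ℕ) (Γ₁ Γ₂ : Subgroup (Matrix.orthogonalGroup (Fin (2 * n)) ℝ)) : Prop :=
  IsPair n Γ₁ Γ₂ ∧ ∀ Δ₁ Δ₂ : Subgroup (Matrix.orthogonalGroup (Fin (2 * n)) ℝ),
    IsPair n Δ₁ Δ₂ → Nat.card Γ₁ ≤ Nat.card Δ₁

open Pool.Agent.Helper477 Pool.Agent.Helper477.Sph Pool.Agent.Helper477.HarmInv

theorem free_iff {N : ℕ} (Γ : Subgroup (Matrix.orthogonalGroup (Fin N) ℝ)) :
    ActsFreely Γ ↔ FreeOn Γ := by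
  constructor
  · intro h g hg hg1 v hv
    by_contra hv0
    have h1 : 0 < v ⬝ᵥ v := by
      rcases (dot_self_nonneg v).lt_or_eq with h2 | h2
      · exact h2
      · exact absurd (dotProduct_self_eq_zero.mp h2.symm) hv0
    set c := (Real.sqrt (v ⬝ᵥ v))⁻¹ with hc
    refine h g hg hg1 (c • v) ?_ ?_
    · rw [smul_dotProduct, dotProduct_smul, smul_eq_mul, smul_eq_mul, ← mul_assoc, hc, ← mul_inv,
        Real.mul_self_sqrt h1.le, inv_mul_cancel₀ h1.ne']
    · rw [Matrix.mulVec_smul, hv]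
  · intro h g hg hg1 v hv hgv
    rw [h g hg hg1 v hgv] at hv
    simp at hv

theorem iso_iff {N : ℕ} (hN : 0 < N) (Γ₁ Γ₂ : Subgroup (Matrix.orthogonalGroup (Fin N) ℝ)) :
    Isospectral Γ₁ Γ₂ ↔ hilb Γ₁ = hilb Γ₂ := by
  have hm : ∀ (Γ : Subgroup (Matrix.orthogonalGroup (Fin N) ℝ)) (k : ℕ), multiplicity Γ k =
      Module.finrank ℝ ↥(MvPolynomial.homogeneousSubmodule (Fin N) ℝ k ⊓ LinearMap.ker (D N) ⊓
        Inv Γ) := fun Γ k => rfl
  constructor
  · intro h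
    have key : ∀ k, Module.finrank ℝ ↥(MvPolynomial.homogeneousSubmodule (Fin N) ℝ k ⊓ Inv Γ₁) =
        Module.finrank ℝ ↥(MvPolynomial.homogeneousSubmodule (Fin N) ℝ k ⊓ Inv Γ₂) := by
      intro k
      induction k using Nat.strong_induction_on with
      | _ k ih =>
        have hk := h k
        rw [hm, hm] at hk
        by_cases hk2 : k < 2
        · rwa [finrank_harmonic_low _ k hk2, finrank_harmonic_low _ k hk2] at hk
        · obtain ⟨m, rfl⟩ : ∃ m, k = m + 2 := ⟨k - 2, by omega⟩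
          have h1 := finrank_harmonic hN (Inv Γ₁) (D_mem_Inv Γ₁) (rsq_mul_mem_Inv Γ₁) m
          have h2 := finrank_harmonic hN (Inv Γ₂) (D_mem_Inv Γ₂) (rsq_mul_mem_Inv Γ₂) m
          have h3 := ih m (by omega)
          omega
    unfold hilb
    congr 1
    funext k
    rw [key k]
  · intro h k
    rw [hm, hm]
    refine isospectral_of_invariants hN Γ₁ Γ₂ (fun k => ?_) k
    have h1 := congrArg (PowerSeries.coeff k) h
    unfold hilb at h1
    rw [PowerSeries.coeff_mk, PowerSeries.coeff_mk] at h1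
    exact_mod_cast h1

/-- For every `n ≥ 3` there are isospectral non-isometric pairs of `(2n-1)`-dimensional spherical
space forms of highest volume, and every such pair consists of lens spaces. -/
theorem result : ∀ n : ℕ, 3 ≤ n →
    (∃ Γ₁ Γ₂ : Subgroup (Matrix.orthogonalGroup (Fin (2 * n)) ℝ), IsHighestVolume n Γ₁ Γ₂) ∧
    ∀ Γ₁ Γ₂ : Subgroup (Matrix.orthogonalGroup (Fin (2 * n)) ℝ),
      IsHighestVolume n Γ₁ Γ₂ → IsCyclic Γ₁ ∧ IsCyclic Γ₂ := by
  classical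
  intro n hn
  have hN : 0 < 2 * n := by omega
  obtain ⟨L₁, L₂, hf₁, hf₂, hr₁, hr₂, hc, hc', hh, hncj⟩ := exists_pair hn
  have hL : IsPair n L₁ L₂ := ⟨hf₁, hf₂, (free_iff _).mpr hr₁, (free_iff _).mpr hr₂,
    (iso_iff hN _ _).mpr hh, hncj⟩
  refine ⟨?_, ?_⟩
  · -- existence by well-ordering
    have hex : ∃ c : ℕ, ∃ Γ₁ Γ₂ : Subgroup (Matrix.orthogonalGroup (Fin (2 * n)) ℝ),
        IsPair n Γ₁ Γ₂ ∧ Nat.card Γ₁ = c := ⟨_, L₁, L₂, hL, rfl⟩
    obtain ⟨Γ₁, Γ₂, h1, h2⟩ := Nat.find_spec hex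
    refine ⟨Γ₁, Γ₂, h1, fun Δ₁ Δ₂ hΔ => ?_⟩
    rw [h2]
    exact Nat.find_min' hex ⟨Δ₁, Δ₂, hΔ, rfl⟩
  · rintro Γ₁ Γ₂ ⟨hP, hmin⟩
    by_contra hnc
    have := hP.finite₁
    have := hP.finite₂
    apply hP.not_isometric
    refine rigid ((free_iff _).mp hP.free₁) ((free_iff _).mp hP.free₂) hN
      ((iso_iff hN _ _).mp hP.isospectral) ((hmin L₁ L₂ hL).trans hc) ?_ hnc
    intro C₁ C₂ hC₁ hC₂ hCf₁ hCf₂ hCh hlt
    by_contra hcj
    have hC : IsPair n C₁ C₂ := ⟨hC₁, hC₂, (free_iff _).mpr hCf₁, (free_iff _).mpr hCf₂,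
      (iso_iff hN _ _).mpr hCh, hcj⟩
    exact absurd (hmin C₁ C₂ hC) (not_le.mpr hlt)

end Pool.Agent.Results.MP_13d552_gt.HighestVolume
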